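import Pool.Agent.Helper24.HW.Stmts

/-! Module CP of the project HW: parity of the number of circuits of the comb-ladder. -/

set_option autoImplicit false

namespace Pool.Agent.Helper81.HW

open Equiv Equiv.Perm Pool.Agent.Helper24.HW Pool.Agent.Helper24.HWPub Pool.Agent.Helper98.Gn

theorem rot_three (k j t : ℕ) (x : TT k j) : rot k j t (rot k j t (rot k j t x)) = x := by
  rcases x with ⟨i, a⟩ | ⟨i, a⟩ | y
  · simp only [rot, Equiv.sumCongr_apply, Sum.map_inl, Equiv.prodCongr_apply, Prod.map_apply,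
      Equiv.refl_apply, Equiv.coe_addRight]
    fin_cases a <;> rfl
  · by_cases hi : (i : ℕ) < t
    · simp only [rot, Equiv.sumCongr_apply, Sum.map_inr, Sum.map_inl, Equiv.prodShear_apply,
        Equiv.refl_apply, Equiv.coe_addRight, if_pos hi]
      fin_cases a <;> rfl
    · simp only [rot, Equiv.sumCongr_apply, Sum.map_inr, Sum.map_inl, Equiv.prodShear_apply,
        Equiv.refl_apply, Equiv.coe_addRight, if_neg hi]
      fin_cases a <;> rfl
  · simp [rot]

theorem CP (h1 : ST_SIG) (h2 : ST_CUB) (h3 : ST_NG) : ST_CP := by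
  intro k j t _ h
  have hR3 : (rot k j t) ^ 3 = 1 := by
    ext x
    rw [pow_succ, pow_two, Perm.mul_apply, Perm.mul_apply, rot_three]
    rfl
  have hsR : Perm.sign (rot k j t) = 1 := by
    have h4 : (Perm.sign (rot k j t)) ^ 3 = 1 := by
      rw [← map_pow, hR3, map_one]
    rcases Int.units_eq_one_or (Perm.sign (rot k j t)) with h5 | h5
    · exact h5
    · rw [h5] at h4
      exact absurd h4 (by decide)
  have hG := (h2 (TT k j) (h.toPerm (ngf k j))).1 (fun x => h x) (fun x => (h3 k j).2.1 x)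
  have hcard : Nat.card (TT k j) = 6 * k + 4 * j + 4 := by
    rw [Nat.card_eq_fintype_card]
    simp only [TT, Fintype.card_sum, Fintype.card_prod, Fintype.card_fin]
    ring
  have h6 := h1 (TT k j) (rot k j t * h.toPerm (ngf k j))
  rw [Perm.sign_mul, hsR, one_mul, h1 (TT k j) (h.toPerm (ngf k j))] at h6
  have h7 : ((-1 : ℤˣ) : ℤ) ^ (Nat.card (TT k j) + cyc (h.toPerm (ngf k j))) =
      ((-1 : ℤˣ) : ℤ) ^ (Nat.card (TT k j) + cyc (rot k j t * h.toPerm (ngf k j))) := by
    rw [← Units.val_pow_eq_pow_val, h6, Units.val_pow_eq_pow_val]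
  have h8 : (Nat.card (TT k j) + cyc (h.toPerm (ngf k j))) % 2 =
      (Nat.card (TT k j) + cyc (rot k j t * h.toPerm (ngf k j))) % 2 := by
    rw [Units.val_neg, Units.val_one] at h7
    rcases Nat.even_or_odd (Nat.card (TT k j) + cyc (h.toPerm (ngf k j))) with ha | ha <;>
      rcases Nat.even_or_odd (Nat.card (TT k j) + cyc (rot k j t * h.toPerm (ngf k j)))
        with hb | hb
    · rw [Nat.even_iff.1 ha, Nat.even_iff.1 hb]
    · rw [ha.neg_one_pow, hb.neg_one_pow] at h7
      norm_num at h7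
    · rw [ha.neg_one_pow, hb.neg_one_pow] at h7
      norm_num at h7
    · rw [Nat.odd_iff.1 ha, Nat.odd_iff.1 hb]
  omega

end Pool.Agent.Helper81.HW
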