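import Pool.Agent.Helper24.HW.Stmts

/-! Module NUM of the project HW: the arithmetic of the Heawood number. -/

set_option autoImplicit false

namespace Pool.Agent.Helper81.HW

open Equiv Equiv.Perm Pool.Agent.Helper24.HW Pool.Agent.Helper24.HWPub Pool.Agent.Helper98.Gn

theorem NUM : ST_NUM := by
  intro S m hm hyp
  have he : (S.eps : ℝ) ≤ 2 := by
    cases S with
    | ori g =>
      simp only [Surf.eps]
      push_cast
      have : (0 : ℝ) ≤ (g : ℝ) := Nat.cast_nonneg g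
      linarith
    | non h =>
      simp only [Surf.eps]
      push_cast
      have : (0 : ℝ) ≤ (h : ℝ) := Nat.cast_nonneg h
      linarith
  have hm1 : (1 : ℝ) ≤ (m : ℝ) := by exact_mod_cast hm
  have hD : (0 : ℝ) ≤ (6 * m + 1 : ℝ) ^ 2 - 24 * (S.eps : ℝ) := by nlinarith
  have hlt : ((6 * m + 1 : ℝ) + Real.sqrt ((6 * m + 1 : ℝ) ^ 2 - 24 * (S.eps : ℝ))) / 2 <
      (heawood S m : ℝ) + 1 := by
    unfold heawood
    exact Nat.lt_floor_add_one _
  generalize heawood S m = H at hyp hlt ⊢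
  have hs0 := Real.sqrt_nonneg ((6 * m + 1 : ℝ) ^ 2 - 24 * (S.eps : ℝ))
  have hs2 := Real.sq_sqrt hD
  generalize Real.sqrt ((6 * m + 1 : ℝ) ^ 2 - 24 * (S.eps : ℝ)) = s at hlt hs0 hs2
  have h1 : s < 2 * ((H : ℝ) + 1) - (6 * m + 1) := by linarith
  have h2 : s ^ 2 < (2 * ((H : ℝ) + 1) - (6 * m + 1)) ^ 2 := by
    apply pow_lt_pow_left₀ h1 hs0 (by norm_num)
  have key : (m : ℝ) * (H + 1) - (H + 1) * H / 6 < (S.eps : ℝ) := by
    rw [hs2] at h2
    nlinarith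
  have hbig : (48 : ℝ) * m + 1500 < (H : ℝ) := by nlinarith
  have hbigN : 48 * m + 1500 < H := by exact_mod_cast hbig
  obtain ⟨k, j, hj, hk, hpar⟩ : ∃ k j : ℕ, j ≤ 11 ∧ H = 6 * k + 5 * j + 9 ∧ m % 2 = k % 2 := by
    by_cases hp : ((H - 9 - 5 * ((5 * H + 3) % 6)) / 6) % 2 = m % 2
    · exact ⟨(H - 9 - 5 * ((5 * H + 3) % 6)) / 6, (5 * H + 3) % 6, by omega, by omega, by omega⟩
    · exact ⟨(H - 9 - 5 * ((5 * H + 3) % 6)) / 6 - 5, (5 * H + 3) % 6 + 6, by omega, by omega,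
        by omega⟩
  refine ⟨k, j, by omega, hj, hk, by omega, hpar, ?_⟩
  have hHr : (H : ℝ) = 6 * k + 5 * j + 9 := by exact_mod_cast hk
  have hjr : (j : ℝ) ≤ 11 := by exact_mod_cast hj
  have hj0 : (0 : ℝ) ≤ (j : ℝ) := Nat.cast_nonneg j
  rw [hHr] at hyp
  have h3 : (0 : ℝ) ≤ ((m : ℝ) - 1) * (11 - j) := mul_nonneg (by linarith) (by linarith)
  have h4 : (j : ℝ) * j ≤ 11 * j := mul_le_mul_of_nonneg_right hjr hj0
  have h5 : ((S.eps + 2 : ℤ) : ℝ) ≤ (((6 * k + 4 * j + 5) * ((m : ℤ) - k - j - 2) + 2 * (j + 4)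
      - 327 - (j + 4) * (j + 3) : ℤ) : ℝ) := by
    push_cast
    nlinarith
  exact_mod_cast h5

end Pool.Agent.Helper81.HW
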